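import Pool.Agent.Helper98.BM.Dense

/-!
# Density: the main construction

`core` follows the lemma of the same name of helper47 (`Pool.Agent.Helper47.WA.Core`), for the curves
`y ^ m = f(x)` and any property of twists that is sparse in all families.
-/

set_option autoImplicit false
set_option linter.style.haveILetI false

namespace Pool.Agent.Helper98.BM

open Polynomial
open Pool.Agent.Q51.EL Pool.Agent.Q51.EB Pool.Agent Pool.Agent.Helper47.WA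

theorem curvePtM_of_value (f : ℤ[X]) (m : ℕ) (D : ℤ) (x s : ℚ) (h : (D : ℚ) * s ^ m = aeval x f)
    (K : Type) [Field K] [CharZero K] : CurvePtM f m D K := by
  refine ⟨(x : K), 1, (s : K), Or.inr one_ne_zero, ?_⟩
  rw [Q52.EL.hom_one]
  have h1 : aeval (x : K) f = ((aeval x f : ℚ) : K) := by
    have := Polynomial.aeval_algebraMap_apply K x f
    simpa using this
  rw [h1, ← h]
  push_cast
  ring

theorem core (n m : ℕ) (hn : 0 < n) (hm : 0 < m) (hme : Even m) (Q : ℤ[X] → ℤ → Prop)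
    (hQ : ∀ f : ℤ[X], Irreducible (f.map (Int.castRingHom ℚ)) → f.natDegree = n → Sparse f (Q f))
    (S : Finset ℕ) (hS : ∀ p ∈ S, p.Prime) (g0 : ℝ[X])
    (g : ∀ (p : ℕ) [Fact p.Prime], ℚ_[p][X]) (hd0 : g0.natDegree ≤ n)
    (hd : ∀ (p : ℕ) [Fact p.Prime], p ∈ S → (g p).natDegree ≤ n)
    (h0 : ∃ x y : ℝ, y ≠ 0 ∧ y ^ m = g0.eval x)
    (h : ∀ (p : ℕ) [Fact p.Prime], p ∈ S → ∃ x y : ℚ_[p], y ≠ 0 ∧ y ^ m = (g p).eval x)
    (ε : ℝ) (hε : 0 < ε) :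
    ∃ (f : ℤ[X]) (D E : ℤ) (c l r : ℚ), Irreducible (f.map (Int.castRingHom ℚ)) ∧ f.natDegree = n ∧
      Squarefree D ∧ E ≠ 0 ∧ l ≠ 0 ∧ r ≠ 0 ∧ c = l ^ m / E ∧ c = r ^ 2 * D ∧ ELSM f m E ∧ ¬ Q f D ∧
      (∀ i ≤ n, |((c * f.coeff i : ℚ) : ℝ) - g0.coeff i| < ε) ∧
      (∀ (p : ℕ) [Fact p.Prime], p ∈ S → ∀ i ≤ n,
        ‖((c * f.coeff i : ℚ) : ℚ_[p]) - (g p).coeff i‖ < ε) := by
  classical
  obtain ⟨f1, x, hirr, hdeg, hc0, hcp, ⟨u0, hu0, hu0'⟩, hup⟩ := first_pow m hm n hn S hS g0 g hd0 hd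
    h0 h (ε / 2) (half_pos hε)
  -- an integral polynomial
  obtain ⟨b, hb, hbf⟩ := IsLocalization.integerNormalization_spec (nonZeroDivisors ℤ) f1
  have hb0 : b ≠ 0 := nonZeroDivisors.ne_zero hb
  have hbq : (b : ℚ) ≠ 0 := by exact_mod_cast hb0
  obtain ⟨f, hf⟩ : ∃ f : ℤ[X], f = C (b ^ (m - 1)) *
    IsLocalization.integerNormalization (nonZeroDivisors ℤ) f1 := ⟨_, rfl⟩
  have hbm : (b : ℚ) ^ (m - 1) * b = (b : ℚ) ^ m := by
    rw [← pow_succ]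
    congr 1
    omega
  have hmap : f.map (Int.castRingHom ℚ) = C ((b : ℚ) ^ m) * f1 := by
    have h1 : (IsLocalization.integerNormalization (nonZeroDivisors ℤ) f1).map (Int.castRingHom ℚ) =
        C (b : ℚ) * f1 := by
      have h2 : algebraMap ℤ ℚ = Int.castRingHom ℚ := rfl
      rw [← h2, hbf, zsmul_eq_mul]
      congr 1
    rw [hf, Polynomial.map_mul, map_C, h1, ← mul_assoc, ← C_mul, ← hbm]
    simp
  have hcoef : ∀ i, (f.coeff i : ℚ) = (b : ℚ) ^ m * f1.coeff i := by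
    intro i
    have h1 : (f.map (Int.castRingHom ℚ)).coeff i = (C ((b : ℚ) ^ m) * f1).coeff i := by rw [hmap]
    rw [coeff_map, coeff_C_mul] at h1
    exact h1
  have hfirr : Irreducible (f.map (Int.castRingHom ℚ)) := by
    rw [hmap]
    exact (irreducible_isUnit_mul (isUnit_C.2 (IsUnit.mk0 _ (pow_ne_zero m hbq)))).2 hirr
  have hfdeg : f.natDegree = n := by
    have h1 : (f.map (Int.castRingHom ℚ)).natDegree = f.natDegree :=
      natDegree_map_eq_of_injective (Int.castRingHom ℚ).injective_int f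
    rw [← h1, hmap, natDegree_C_mul (pow_ne_zero m hbq), hdeg]
  -- the value at x
  have hval : aeval x f = (b : ℚ) ^ m * f1.eval x := by
    have h1 : aeval x f = (f.map (Int.castRingHom ℚ)).eval x := by
      rw [aeval_def, eval_map]
      rfl
    rw [h1, hmap, eval_mul, eval_C]
  have hfx : f1.eval x ≠ 0 := by
    intro h1
    rw [h1, Rat.cast_zero, pow_eq_zero_iff hm.ne'] at hu0'
    exact hu0 hu0'
  have hvne : aeval x f ≠ 0 := by rw [hval]; exact mul_ne_zero (pow_ne_zero m hbq) hfx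
  obtain ⟨t, ht⟩ : ∃ t : ℚ, t = (aeval x f : ℚ).den := ⟨_, rfl⟩
  have ht0 : t ≠ 0 := by rw [ht]; exact_mod_cast (aeval x f : ℚ).den_ne_zero
  obtain ⟨D0, hD0⟩ : ∃ D0 : ℤ, D0 = (aeval x f : ℚ).num * ((aeval x f : ℚ).den : ℤ) ^ (m - 1) :=
    ⟨_, rfl⟩
  have hD0v : (D0 : ℚ) = aeval x f * t ^ m := by
    have h1 : t ^ m = t * t ^ (m - 1) := by
      rw [← pow_succ']
      congr 1
      omega
    have h2 : (aeval x f : ℚ) * t = (aeval x f : ℚ).num := by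
      rw [ht]; exact Rat.mul_den_eq_num _
    rw [h1, ← mul_assoc, h2, hD0, ht]
    push_cast
    ring
  have hD0' : D0 ≠ 0 := by
    have : (D0 : ℚ) ≠ 0 := by rw [hD0v]; exact mul_ne_zero hvne (pow_ne_zero m ht0)
    exact_mod_cast this
  have hptK : ∀ (K : Type) [Field K] [CharZero K], CurvePtM f m D0 K := by
    intro K _ _
    refine curvePtM_of_value f m D0 x t⁻¹ ?_ K
    rw [hD0v, mul_assoc, ← mul_pow, mul_inv_cancel₀ ht0, one_pow, mul_one]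
  have hels : ELSM f m D0 := ⟨hptK ℝ, fun p _ => hptK ℚ_[p]⟩
  obtain ⟨D1, s, hD1, hs, hD1s⟩ := squarefree_part (D0 : ℚ) (by exact_mod_cast hD0')
  obtain ⟨k, hk0, hkN, hk1, hsq, hEL, hBad⟩ := exists_twist f hfirr m hm (Q f)
    (hQ f hfirr hfdeg) D0 hD0' hels D1 hD1 (m ^ 2 * ∏ p ∈ S, p)
    (mul_ne_zero (pow_ne_zero 2 hm.ne')
      (Finset.prod_ne_zero_iff.2 fun p hp => (hS p hp).ne_zero))
  have hE : (D0 * k : ℤ) ≠ 0 := mul_ne_zero hD0' (by exact_mod_cast hk0.ne')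
  -- local roots
  have hroot : ∀ (K : Type) [Field K] [CharZero K] (u : K), u ≠ 0 →
      u ^ m = ((f1.eval x : ℚ) : K) → (∃ z : K, z ≠ 0 ∧ z ^ m = (k : K)) →
      ∃ e : K, e ≠ 0 ∧ e ^ m = (((b : ℚ) ^ m / ((D0 * k : ℤ) : ℚ) : ℚ) : K) := by
    intro K _ _ u hu hu' ⟨z, hz, hz'⟩
    have htK : ((t : ℚ) : K) ≠ 0 := by exact_mod_cast ht0
    have hbK : ((b : ℤ) : K) ≠ 0 := by exact_mod_cast hb0
    refine ⟨(u * (t : K) * z)⁻¹, ?_, ?_⟩
    · exact inv_ne_zero (mul_ne_zero (mul_ne_zero hu htK) hz)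
    · have h1 : (D0 : ℚ) = (b : ℚ) ^ m * f1.eval x * t ^ m := by rw [hD0v, hval]
      have h2 : (D0 : K) = (b : K) ^ m * ((f1.eval x : ℚ) : K) * (t : K) ^ m := by
        exact_mod_cast congrArg (fun r : ℚ => (r : K)) h1
      push_cast
      rw [inv_pow, mul_pow, mul_pow, hz', h2, ← hu']
      field_simp
  obtain ⟨E, hE'⟩ : ∃ E : ℚ, E = (b : ℚ) ^ m / ((D0 * k : ℤ) : ℚ) := ⟨_, rfl⟩
  rw [← hE'] at hroot
  have hco : ∀ (l : ℚ) (i : ℕ), (l ^ m / ((D0 * k : ℤ) : ℚ) * f.coeff i : ℚ) =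
      l ^ m * E * f1.coeff i := by
    intro l i
    rw [hcoef, hE']
    ring
  -- the real place
  have hk0' : (0 : ℝ) < (k : ℝ) := by exact_mod_cast hk0
  obtain ⟨e0, he0, he0'⟩ := hroot ℝ u0 hu0 hu0'
    ⟨(k : ℝ) ^ ((m : ℝ)⁻¹), (Real.rpow_pos_of_pos hk0' _).ne',
      Real.rpow_inv_natCast_pow hk0'.le hm.ne'⟩
  obtain ⟨δ0, hδ0, hsc0⟩ := scale_pow m n (fun i => ((f1.coeff i : ℚ) : ℝ)) (E : ℝ) e0 he0 he0'
    (ε / 2) (half_pos hε)
  -- the p-adic places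
  have h' : ∀ (p : ℕ) [Fact p.Prime], ∃ (e : ℚ_[p]) (δ : ℝ), 0 < δ ∧ (p ∈ S →
      ∀ z : ℚ_[p], ‖z - e⁻¹‖ < δ → z ≠ 0 ∧
        ∀ i ≤ n, ‖z ^ m * (E : ℚ_[p]) * ((f1.coeff i : ℚ) : ℚ_[p]) - ((f1.coeff i : ℚ) : ℚ_[p])‖ <
          ε / 2) := by
    intro p hp
    by_cases hpS : p ∈ S
    · obtain ⟨u, hu, hu'⟩ := hup p hpS
      obtain ⟨e, he, he'⟩ := hroot ℚ_[p] u hu hu' (isPow_padic m hm S k hkN hk1 p hpS)
      obtain ⟨δ, hδ, hsc⟩ := scale_pow m n (fun i => ((f1.coeff i : ℚ) : ℚ_[p])) (E : ℚ_[p]) e he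
        he' (ε / 2) (half_pos hε)
      exact ⟨e, δ, hδ, fun _ => hsc⟩
    · exact ⟨0, 1, one_pos, fun h => absurd h hpS⟩
  choose ep dp hdp hscp using h'
  obtain ⟨δ1, hδ1, hδ1'⟩ := exists_pos_le S
    (fun p => if hp : p.Prime then @dp p ⟨hp⟩ else 1) (by
      intro p hpS
      rw [dif_pos (hS p hpS)]
      exact @hdp p ⟨hS p hpS⟩)
  have hδ1'' : ∀ (p : ℕ) [Fact p.Prime], p ∈ S → δ1 ≤ dp p := by
    intro p hp hpS
    have := hδ1' p hpS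
    rwa [dif_pos hp.out] at this
  obtain ⟨l, hl0, hlp⟩ := approx S hS e0⁻¹ (fun p _ => (ep p)⁻¹) (min δ0 δ1) (lt_min hδ0 hδ1)
  obtain ⟨hlne, hlc0⟩ := hsc0 (l : ℝ) (by rw [Real.norm_eq_abs]; exact hl0.trans_le (min_le_left _ _))
  have hl : l ≠ 0 := by exact_mod_cast hlne
  have hDk : ((D1 * k : ℤ) : ℚ) ≠ 0 := by exact_mod_cast hsq.ne_zero
  refine ⟨f, D1 * k, D0 * k, l ^ m / ((D0 * k : ℤ) : ℚ), l, l ^ (m / 2) / (s * ((D1 * k : ℤ) : ℚ)),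
    hfirr, hfdeg, hsq, hE, hl, div_ne_zero (pow_ne_zero _ hl) (mul_ne_zero hs hDk), rfl, ?_, hEL,
    hBad, ?_, ?_⟩
  · have h1 : (l ^ (m / 2)) ^ 2 = l ^ m := by
      rw [← pow_mul, Nat.div_mul_cancel hme.two_dvd]
    have h2 : ((D0 * k : ℤ) : ℚ) = ((D1 * k : ℤ) : ℚ) * s ^ 2 := by
      push_cast
      rw [hD1s]
      ring
    rw [div_pow, h1, h2]
    field_simp
  · intro i hi
    have h1 := hlc0 i hi
    have h2 := hc0 i hi
    rw [Real.norm_eq_abs] at h1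
    have h3 := abs_add_le ((l : ℝ) ^ m * (E : ℝ) * ((f1.coeff i : ℚ) : ℝ) - ((f1.coeff i : ℚ) : ℝ))
      (((f1.coeff i : ℚ) : ℝ) - g0.coeff i)
    rw [sub_add_sub_cancel] at h3
    rw [hco l i]
    push_cast
    linarith
  · intro p hp hpS i hi
    have h1 := (hscp p hpS (l : ℚ_[p]) ((hlp p hpS).trans_le
      ((min_le_right _ _).trans (hδ1'' p hpS)))).2 i hi
    have h2 := hcp p hpS i hi
    have h3 := norm_add_le ((l : ℚ_[p]) ^ m * (E : ℚ_[p]) * ((f1.coeff i : ℚ) : ℚ_[p]) -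
      ((f1.coeff i : ℚ) : ℚ_[p])) (((f1.coeff i : ℚ) : ℚ_[p]) - (g p).coeff i)
    rw [sub_add_sub_cancel] at h3
    rw [hco l i]
    push_cast
    linarith

end Pool.Agent.Helper98.BM
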