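import Pool.Graph.R_pool_sql_team_seeded_3997aac3.Q51.EB.All2
import Pool.Agent.Helper47.WA.Count

/-!
# Counting the twists with an adelic point orthogonal to the classes `A_ε`

`bm_bound`: the number of the squarefree `D`, `|D| ≤ X`, such that some adelic point of `D y² = f(x)` is
orthogonal to all classes `A_ε`, is at most `C (log X)^(-δ) (X / log X) exp(∑ 1/q)`, the sum over the
primes `q ≤ X` modulo which `f` has a zero (a reformulation of `Pool.Agent.Q51.EB.t_up` of the library).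
-/

set_option autoImplicit false

namespace Pool.Agent.Helper98.BM

open Polynomial NumberField IsDedekindDomain Finset
open Pool.Agent.Q51.EL Pool.Agent.Q51.EB Pool.Agent Pool.Agent.Helper47.WA

/-- the squarefree `D`, `|D| ≤ X`, with `Q D` are `O((log X)^(-δ))` times the main term -/
def Sparse (f : ℤ[X]) (Q : ℤ → Prop) : Prop :=
  ∃ δ C X0 : ℝ, 0 < δ ∧ 0 ≤ C ∧ ∀ X : ℝ, X0 ≤ X →
    (({D : ℤ | (D.natAbs : ℝ) ≤ X ∧ Squarefree D ∧ Q D}.ncard : ℕ) : ℝ) ≤
    C * Real.log X ^ (-δ) * Main f X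

/-- the predicate that some adelic point of `D y² = f(x)` is orthogonal to all classes `A_ε` -/
def HasBM (f : ℤ[X]) (D : ℤ) : Prop := ∃ P : AVal f D, Orth P

theorem bm_bound (f : ℤ[X]) (hf : Irreducible (f.map (Int.castRingHom ℚ)))
    (hev : Even f.natDegree) (h6 : 6 ≤ f.natDegree) : Sparse f (HasBM f) := by
  obtain ⟨K, C2, C3, c, hK, hC2, hc, hS⟩ := t_up f hf hev h6
  have hmon : Monotone (Gf f) := fun Y Z h => Gf_mono f h
  have hM0 : ∀ X : ℝ, 0 ≤ Main f X ∨ X < 3 := by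
    intro X
    rcases lt_or_ge X 3 with h | h
    · exact Or.inr h
    · left
      unfold Main
      have : 0 < Real.log X := Real.log_pos (by linarith)
      positivity
  obtain ⟨δ, C, hδ, hC, hr⟩ := ratio
    (fun X => ((({D : ℤ | (D.natAbs : ℝ) ≤ X ∧ Squarefree D ∧ HasBM f D}).ncard : ℕ) : ℝ))
    (fun X => ((({D : ℤ | (D.natAbs : ℝ) ≤ X ∧ Squarefree D ∧ HasBM f D}).ncard : ℕ) : ℝ) +
      max (Main f X) 0)
    (Gf f) f.natDegree (by omega) K C2 C3 c 1 0 hK hC2 hc one_pos (fun X => by positivity)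
    (fun X => by linarith [le_max_right (Main f X) 0]) hmon hS (fun X _ => by
      have h1 : 1 * X / Real.log X * Real.exp (Gf f X) = Main f X := by
        rw [Main]; ring
      rw [h1]
      have h2 := le_max_left (Main f X) 0
      have h3 : (0 : ℝ) ≤ ((({D : ℤ | (D.natAbs : ℝ) ≤ X ∧ Squarefree D ∧ HasBM f D}).ncard : ℕ) :
        ℝ) := by positivity
      linarith)
  obtain ⟨X1, hX1⟩ : ∃ X1 : ℝ, ∀ X : ℝ, X1 ≤ X → C * Real.log X ^ (-δ) ≤ 1 / 2 := by
    have h1 : Filter.Tendsto (fun X : ℝ => C * Real.log X ^ (-δ)) Filter.atTop (nhds (C * 0)) :=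
      ((tendsto_rpow_neg_atTop hδ).comp Real.tendsto_log_atTop).const_mul C
    rw [mul_zero] at h1
    have h2 := h1.eventually (gt_mem_nhds (show (0 : ℝ) < 1 / 2 by norm_num))
    obtain ⟨X1, hX1⟩ := Filter.eventually_atTop.1 h2
    exact ⟨X1, fun X hX => (hX1 X hX).le⟩
  refine ⟨δ, 2 * C, max 3 X1, hδ, by positivity, fun X hX => ?_⟩
  have h3 : 3 ≤ X := (le_max_left _ _).trans hX
  have h4 := hr X h3
  have h5 := hX1 X ((le_max_right _ _).trans hX)
  have h6' : 0 ≤ Main f X := (hM0 X).resolve_right (not_lt.2 h3)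
  rw [max_eq_left h6'] at h4
  set S : ℝ := ((({D : ℤ | (D.natAbs : ℝ) ≤ X ∧ Squarefree D ∧ HasBM f D}).ncard : ℕ) : ℝ)
  have hS0 : 0 ≤ S := by positivity
  have h7 : C * Real.log X ^ (-δ) * S ≤ 1 / 2 * S := mul_le_mul_of_nonneg_right h5 hS0
  have h8 : C * Real.log X ^ (-δ) * (S + Main f X) =
    C * Real.log X ^ (-δ) * S + C * Real.log X ^ (-δ) * Main f X := by ring
  rw [h8] at h4
  have h9 : 2 * C * Real.log X ^ (-δ) * Main f X =
    2 * (C * Real.log X ^ (-δ) * Main f X) := by ring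
  rw [h9]
  linarith

end Pool.Agent.Helper98.BM
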