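import Pool.Agent.Helper98.BM.Twist
import Pool.Agent.Helper47.WA.Dense

/-!
# Density: the construction, for `m`-th powers

These lemmas are those of helper47 (`Pool.Agent.Helper47.WA.Approx`, `Pool.Agent.Helper47.WA.Dense`), with
`m`-th powers in place of squares.
-/

set_option autoImplicit false
set_option linter.style.haveILetI false

namespace Pool.Agent.Helper98.BM

open Polynomial
open Pool.Agent.Q51.EL Pool.Agent.Q51.EB Pool.Agent Pool.Agent.Helper47.WA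

/-- the nonzero `m`-th powers form a neighbourhood of a nonzero `m`-th power -/
theorem powers_nhds {K : Type*} [NontriviallyNormedField K] [CompleteSpace K] [CharZero K]
    (m : ℕ) (hm : 0 < m) (y : K) (hy : y ≠ 0) : {z : K | ∃ u : K, u ≠ 0 ∧ u ^ m = z} ∈ nhds (y ^ m) := by
  have h1 : HasStrictDerivAt (fun x : K => x ^ m) (m * y ^ (m - 1)) y := hasStrictDerivAt_pow m y
  have h2 : (m * y ^ (m - 1) : K) ≠ 0 :=
    mul_ne_zero (by exact_mod_cast hm.ne') (pow_ne_zero _ hy)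
  have h3 := h1.map_nhds_eq h2
  rw [← h3, Filter.mem_map]
  have h4 : ∀ᶠ x in nhds y, x ≠ 0 := isOpen_ne.mem_nhds hy
  filter_upwards [h4] with x hx
  exact ⟨x, hx, rfl⟩

/-- values near a nonzero `m`-th power value are nonzero `m`-th powers -/
theorem power_value {K : Type*} [NontriviallyNormedField K] [CompleteSpace K] [CharZero K]
    (m : ℕ) (hm : 0 < m) (n : ℕ) (g : K[X]) (hg : g.natDegree ≤ n) (x y : K) (hy : y ≠ 0) (hxy : y ^ m = g.eval x) :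
    ∃ δ : ℝ, 0 < δ ∧ ∀ (h : K[X]) (x' : K), h.natDegree ≤ n →
      (∀ i ≤ n, ‖h.coeff i - g.coeff i‖ < δ) → ‖x' - x‖ < δ →
      ∃ u : K, u ≠ 0 ∧ u ^ m = h.eval x' := by
  have hc : Continuous fun c : (Fin (n + 1) → K) × K => ∑ i : Fin (n + 1), c.1 i * c.2 ^ (i : ℕ) := by
    fun_prop
  have h1 := hc.tendsto ((fun i : Fin (n + 1) => g.coeff i), x)
  have hev : ∀ (h : K[X]) (x' : K), h.natDegree ≤ n →
      ∑ i : Fin (n + 1), h.coeff i * x' ^ (i : ℕ) = h.eval x' := by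
    intro h x' hh
    rw [eval_eq_sum_range' (Nat.lt_succ_of_le hh), Fin.sum_univ_eq_sum_range
      (fun i => h.coeff i * x' ^ i)]
  have h2 := h1 (by rw [hev g x hg, ← hxy]; exact powers_nhds m hm y hy)
  rw [Filter.mem_map, Metric.mem_nhds_iff] at h2
  obtain ⟨δ, hδ, h3⟩ := h2
  refine ⟨δ, hδ, fun h x' hh h4 h5 => ?_⟩
  have h6 : ((fun i : Fin (n + 1) => h.coeff i), x') ∈
      Metric.ball ((fun i : Fin (n + 1) => g.coeff i), x) δ := by
    rw [Metric.mem_ball, Prod.dist_eq, max_lt_iff]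
    refine ⟨?_, by simpa [dist_eq_norm] using h5⟩
    rw [dist_pi_lt_iff hδ]
    intro i
    rw [dist_eq_norm]
    exact h4 i (Nat.lt_succ_iff.1 i.2)
  have h7 := h3 h6
  rw [Set.mem_preimage, hev h x' hh] at h7
  exact h7

/-- scaling by a rational number close to the inverse of a local `m`-th root -/
theorem scale_pow {K : Type*} [NontriviallyNormedField K] (m n : ℕ) (c : ℕ → K) (E e : K) (he : e ≠ 0)
    (hE : e ^ m = E) (ε : ℝ) (hε : 0 < ε) :
    ∃ δ : ℝ, 0 < δ ∧ ∀ z : K, ‖z - e⁻¹‖ < δ → z ≠ 0 ∧ ∀ i ≤ n, ‖z ^ m * E * c i - c i‖ < ε := by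
  have hc : Continuous fun z : K => fun i : Fin (n + 1) => z ^ m * E * c i := by fun_prop
  have h1 := hc.tendsto e⁻¹
  have h2 : Metric.ball (fun i : Fin (n + 1) => e⁻¹ ^ m * E * c i) ε ∈
    nhds (fun i : Fin (n + 1) => e⁻¹ ^ m * E * c i) := Metric.ball_mem_nhds _ hε
  have h3 := h1 h2
  rw [Filter.mem_map, Metric.mem_nhds_iff] at h3
  obtain ⟨δ, hδ, h4⟩ := h3
  refine ⟨min δ ‖e⁻¹‖, lt_min hδ (norm_pos_iff.2 (inv_ne_zero he)), fun z hz => ⟨?_, fun i hi => ?_⟩⟩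
  · rintro rfl
    rw [zero_sub, norm_neg] at hz
    exact absurd hz (not_lt.2 (min_le_right _ _))
  · have h5 : z ∈ Metric.ball e⁻¹ δ := by
      rw [Metric.mem_ball, dist_eq_norm]
      exact hz.trans_le (min_le_left _ _)
    have h6 := h4 h5
    rw [Set.mem_preimage, Metric.mem_ball, dist_pi_lt_iff hε] at h6
    have h7 := h6 ⟨i, Nat.lt_succ_of_le hi⟩
    rw [dist_eq_norm] at h7
    have h8 : e⁻¹ ^ m * E * c i = c i := by
      rw [← hE, ← mul_pow, inv_mul_cancel₀ he, one_pow, one_mul]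
    simp only at h7
    rwa [h8] at h7

/-- the first approximation: an irreducible polynomial with a value in the right classes -/
theorem first_pow (m : ℕ) (hm : 0 < m) (n : ℕ) (hn : 0 < n) (S : Finset ℕ) (hS : ∀ p ∈ S, p.Prime) (g0 : ℝ[X])
    (g : ∀ (p : ℕ) [Fact p.Prime], ℚ_[p][X]) (hd0 : g0.natDegree ≤ n)
    (hd : ∀ (p : ℕ) [Fact p.Prime], p ∈ S → (g p).natDegree ≤ n)
    (h0 : ∃ x y : ℝ, y ≠ 0 ∧ y ^ m = g0.eval x)
    (h : ∀ (p : ℕ) [Fact p.Prime], p ∈ S → ∃ x y : ℚ_[p], y ≠ 0 ∧ y ^ m = (g p).eval x)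
    (ε : ℝ) (hε : 0 < ε) :
    ∃ (f : ℚ[X]) (x : ℚ), Irreducible f ∧ f.natDegree = n ∧
      (∀ i ≤ n, |(f.coeff i : ℝ) - g0.coeff i| < ε) ∧
      (∀ (p : ℕ) [Fact p.Prime], p ∈ S → ∀ i ≤ n, ‖(f.coeff i : ℚ_[p]) - (g p).coeff i‖ < ε) ∧
      (∃ u : ℝ, u ≠ 0 ∧ u ^ m = ((f.eval x : ℚ) : ℝ)) ∧
      (∀ (p : ℕ) [Fact p.Prime], p ∈ S → ∃ u : ℚ_[p], u ≠ 0 ∧ u ^ m = ((f.eval x : ℚ) : ℚ_[p])) := by
  classical
  obtain ⟨q, hqS, hq⟩ : ∃ q : ℕ, q ∉ S ∧ q.Prime := by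
    obtain ⟨q, hq1, hq2⟩ := Nat.exists_infinite_primes (S.sup id + 1)
    refine ⟨q, fun hqS => ?_, hq2⟩
    have : q ≤ S.sup id := Finset.le_sup (f := id) hqS
    omega
  haveI : Fact q.Prime := ⟨hq⟩
  obtain ⟨x0, y0, hy0, hxy0⟩ := h0
  obtain ⟨δ0, hδ0, hsq0⟩ := power_value m hm n g0 hd0 x0 y0 hy0 hxy0
  have h' : ∀ (p : ℕ) [Fact p.Prime], ∃ (x : ℚ_[p]) (δ : ℝ), 0 < δ ∧ (p ∈ S →
      ∀ (k : ℚ_[p][X]) (x' : ℚ_[p]), k.natDegree ≤ n →
      (∀ i ≤ n, ‖k.coeff i - (g p).coeff i‖ < δ) → ‖x' - x‖ < δ →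
      ∃ u : ℚ_[p], u ≠ 0 ∧ u ^ m = k.eval x') := by
    intro p hp
    by_cases hpS : p ∈ S
    · obtain ⟨x, y, hy, hxy⟩ := h p hpS
      obtain ⟨δ, hδ, hsq⟩ := power_value m hm n (g p) (hd p hpS) x y hy hxy
      exact ⟨x, δ, hδ, fun _ => hsq⟩
    · exact ⟨0, 1, one_pos, fun h => absurd h hpS⟩
  choose xp dp hdp hsqp using h'
  obtain ⟨δ1, hδ1, hδ1'⟩ := exists_pos_le S
    (fun p => if hp : p.Prime then @dp p ⟨hp⟩ else 1) (by
      intro p hpS
      rw [dif_pos (hS p hpS)]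
      exact @hdp p ⟨hS p hpS⟩)
  have hδ1'' : ∀ (p : ℕ) [Fact p.Prime], p ∈ S → δ1 ≤ dp p := by
    intro p hp hpS
    have := hδ1' p hpS
    rwa [dif_pos hp.out] at this
  have hq1 : (1 : ℝ) < q := by exact_mod_cast hq.one_lt
  have hqinv : 0 < (q : ℝ)⁻¹ := by positivity
  have hqinv1 : (q : ℝ)⁻¹ < 1 := inv_lt_one_of_one_lt₀ hq1
  obtain ⟨δ, hδdef⟩ : ∃ δ : ℝ, δ = min (min δ0 δ1) (min ε (q : ℝ)⁻¹) := ⟨_, rfl⟩
  have hδ : 0 < δ := by rw [hδdef]; exact lt_min (lt_min hδ0 hδ1) (lt_min hε hqinv)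
  have e0 : δ ≤ δ0 := by rw [hδdef]; exact (min_le_left _ _).trans (min_le_left _ _)
  have e1 : δ ≤ δ1 := by rw [hδdef]; exact (min_le_left _ _).trans (min_le_right _ _)
  have e2 : δ ≤ ε := by rw [hδdef]; exact (min_le_right _ _).trans (min_le_left _ _)
  have e3 : δ ≤ (q : ℝ)⁻¹ := by rw [hδdef]; exact (min_le_right _ _).trans (min_le_right _ _)
  -- the coefficients
  have hS' : ∀ p ∈ insert q S, p.Prime := by
    intro p hp
    rcases Finset.mem_insert.1 hp with rfl | hp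
    · exact hq
    · exact hS p hp
  have hc := fun i : ℕ => approx (insert q S) hS' (g0.coeff i)
    (fun p _ => if p = q then (((if i = n then 1 else if i = 0 then (q : ℚ) else 0) : ℚ) : ℚ_[p])
      else (g p).coeff i) δ hδ
  choose c hc0 hcp using hc
  obtain ⟨x, hx0, hxp⟩ := approx S hS x0 (fun p _ => xp p) δ hδ
  obtain ⟨f, hf⟩ : ∃ f : ℚ[X], f = ∑ i ∈ Finset.range (n + 1), C (c i) * X ^ i := ⟨_, rfl⟩
  have hcoef : ∀ i, f.coeff i = if i ≤ n then c i else 0 := by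
    intro i
    rw [hf, finsetSum_coeff]
    simp only [coeff_C_mul, coeff_X_pow, mul_ite, mul_one, mul_zero]
    rw [Finset.sum_ite_eq]
    simp
  have hfdeg : f.natDegree ≤ n := by
    rw [natDegree_le_iff_coeff_eq_zero]
    intro i hi
    rw [hcoef, if_neg (by omega)]
  have hcq : ∀ i, ‖(c i : ℚ_[q]) -
      (((if i = n then 1 else if i = 0 then (q : ℚ) else 0) : ℚ) : ℚ_[q])‖ < δ := by
    intro i
    have := hcp i q (Finset.mem_insert_self _ _)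
    rwa [if_pos rfl] at this
  have hcS : ∀ i (p : ℕ) [Fact p.Prime], p ∈ S → ‖(c i : ℚ_[p]) - (g p).coeff i‖ < δ := by
    intro i p hp hpS
    have := hcp i p (Finset.mem_insert_of_mem hpS)
    have hpq : p ≠ q := by rintro rfl; exact hqS hpS
    rwa [if_neg hpq] at this
  obtain ⟨hirr, hdeg⟩ := irreducible_of_near q f n hn hfdeg (by
      have := hcq n
      rw [if_pos rfl] at this
      rw [hcoef, if_pos le_rfl]
      push_cast at this
      linarith) (by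
      intro i hi
      have := hcq i
      rw [if_neg hi.ne] at this
      rw [hcoef, if_pos hi.le]
      have h1 : ‖(((if i = 0 then (q : ℚ) else 0) : ℚ) : ℚ_[q])‖ < 1 := by
        by_cases h2 : i = 0
        · rw [if_pos h2]
          push_cast
          rw [Padic.norm_p]
          exact hqinv1
        · rw [if_neg h2]
          simp
      have h3 := Padic.nonarchimedean ((c i : ℚ_[q]) -
        (((if i = 0 then (q : ℚ) else 0) : ℚ) : ℚ_[q])) (((if i = 0 then (q : ℚ) else 0) : ℚ) : ℚ_[q])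
      rw [sub_add_cancel] at h3
      refine h3.trans_lt (max_lt ?_ h1)
      linarith) (by
      have := hcq 0
      rw [if_neg hn.ne, if_pos rfl] at this
      rw [hcoef, if_pos (Nat.zero_le _)]
      push_cast at this
      linarith)
  have hev : ∀ (K : Type) [Field K] [CharZero K], ((f.eval x : ℚ) : K) =
      (f.map (algebraMap ℚ K)).eval (x : K) := by
    intro K _ _
    rw [eval_map_algebraMap]
    have := Polynomial.aeval_algebraMap_apply K x f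
    simpa using this.symm
  refine ⟨f, x, hirr, hdeg, ?_, ?_, ?_, ?_⟩
  · intro i hi
    rw [hcoef, if_pos hi]
    exact (hc0 i).trans_le e2
  · intro p hp hpS i hi
    rw [hcoef, if_pos hi]
    exact (hcS i p hpS).trans_le e2
  · rw [hev ℝ]
    refine hsq0 _ _ (natDegree_map_le.trans hfdeg) (fun i hi => ?_) ?_
    · rw [coeff_map, hcoef, if_pos hi, Real.norm_eq_abs]
      exact (hc0 i).trans_le e0
    · rw [Real.norm_eq_abs]
      exact hx0.trans_le e0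
  · intro p hp hpS
    rw [hev ℚ_[p]]
    refine hsqp p hpS _ _ (natDegree_map_le.trans hfdeg) (fun i hi => ?_) ?_
    · rw [coeff_map, hcoef, if_pos hi]
      exact (hcS i p hpS).trans_le (e1.trans (hδ1'' p hpS))
    · exact (hxp p hpS).trans_le (e1.trans (hδ1'' p hpS))

/-- integers `k ≡ 1` modulo `m² ∏ p` are `m`-th powers in `ℚ_p`, `p ∈ S` -/
theorem isPow_padic (m : ℕ) (hm : 0 < m) (S : Finset ℕ) (k : ℕ)
    (hk : k.Coprime (m ^ 2 * ∏ p ∈ S, p)) (hk1 : k % (m ^ 2 * ∏ p ∈ S, p) = 1 % (m ^ 2 * ∏ p ∈ S, p))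
    (p : ℕ) [hp : Fact p.Prime] (hpS : p ∈ S) :
    ∃ s : ℚ_[p], s ≠ 0 ∧ s ^ m = (k : ℚ_[p]) := by
  have hpd : p ∣ ∏ p ∈ S, p := Finset.dvd_prod_of_mem _ hpS
  have hpm : ¬ (p : ℤ) ∣ (k : ℤ) := by
    intro h
    have h1 : p ∣ k := by exact_mod_cast h
    exact hp.out.one_lt.ne' (Nat.eq_one_of_dvd_coprimes hk h1 (hpd.mul_left _))
  obtain ⟨c, hc⟩ := hpd
  have hWk : ((m ^ 2 * ∏ p ∈ S, p : ℕ) : ℤ) ∣ 1 - k := by
    have : (k : ℤ) ≡ 1 [ZMOD (m ^ 2 * ∏ p ∈ S, p : ℕ)] := by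
      have := (Int.natCast_modEq_iff).2 (show k ≡ 1 [MOD (m ^ 2 * ∏ p ∈ S, p)] from hk1)
      exact_mod_cast this
    exact this.dvd
  obtain ⟨e, he⟩ := hWk
  have hm0 : 0 < ‖(m : ℤ_[p])‖ := by
    rw [norm_pos_iff]
    exact_mod_cast hm.ne'
  obtain ⟨s, hs, hs'⟩ := Q68.EB.pow_of p m hm (k : ℤ) 1 hpm (by
    have h1 : ((1 : ℤ) ^ m - (k : ℤ) : ℤ) = (m : ℤ) ^ 2 * ((p : ℤ) * ((c : ℤ) * e)) := by
      rw [one_pow, he, hc]
      push_cast
      ring
    rw [h1]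
    push_cast
    rw [norm_mul, norm_pow, norm_mul]
    have h2 : ‖((c : ℤ_[p]) * (e : ℤ_[p]))‖ ≤ 1 := PadicInt.norm_le_one _
    have h3 : ‖(p : ℤ_[p])‖ < 1 := by
      rw [PadicInt.norm_p]
      exact inv_lt_one_of_one_lt₀ (by exact_mod_cast hp.out.one_lt)
    have h4 : ‖(p : ℤ_[p])‖ * ‖((c : ℤ_[p]) * (e : ℤ_[p]))‖ < 1 := by
      refine lt_of_le_of_lt (mul_le_of_le_one_right (norm_nonneg _) h2) h3
    have h5 : 0 < ‖(m : ℤ_[p])‖ ^ 2 := by positivity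
    nlinarith)
  exact ⟨s, hs, by rw [hs']; norm_cast⟩

end Pool.Agent.Helper98.BM
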