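import Pool.Graph.R_pool_sql_team_seeded_3997aac3.Q51.EB.All2

/-!
# Invariance of the local symbols under multiplication of the polynomial by a constant
-/

set_option autoImplicit false

namespace Pool.Agent.Helper98.BM

open Polynomial
open Pool.Agent.Q51.EB

variable {F : Type} [Field F]

theorem hw_cast {n n' : ℕ} (h : n = n') (M : Matrix (Fin n) (Fin n) F)
    (M' : Matrix (Fin n') (Fin n') F) (hM : ∀ i j, M i j = M' (Fin.cast h i) (Fin.cast h j)) :
    hw M = hw M' := by
  subst h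
  congr 1
  ext i j
  exact hM i j

theorem assoc_mul {c : F} (hc : c ≠ 0) (g : F[X]) : Associated (C c * g) g :=
  associated_unit_mul_left g (C c) (isUnit_C.2 (IsUnit.mk0 c hc))

theorem equiv_mk {c : F} (hc : c ≠ 0) (g u : F[X]) :
    AdjoinRoot.algEquivOfAssociated F (C c * g) g (assoc_mul hc g) (AdjoinRoot.mk (C c * g) u) =
      AdjoinRoot.mk g u := by
  rw [← AdjoinRoot.aeval_eq, ← AdjoinRoot.aeval_eq, ← AlgEquiv.coe_toAlgHom, ← aeval_algHom_apply,
    AlgEquiv.coe_toAlgHom, AdjoinRoot.algEquivOfAssociated_root]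

theorem trace_mul {c : F} (hc : c ≠ 0) (g u : F[X]) :
    Algebra.trace F (AdjoinRoot (C c * g)) (AdjoinRoot.mk (C c * g) u) =
      Algebra.trace F (AdjoinRoot g) (AdjoinRoot.mk g u) := by
  rw [← equiv_mk hc g u, Algebra.trace_eq_of_algEquiv]

theorem norm_mul' {c : F} (hc : c ≠ 0) (g u : F[X]) :
    Algebra.norm F (AdjoinRoot.mk (C c * g) u) = Algebra.norm F (AdjoinRoot.mk g u) := by
  rw [← equiv_mk hc g u, Algebra.norm_eq_of_algEquiv]

theorem gram_mul {c : F} (hc : c ≠ 0) (g u : F[X]) : hw (gram (C c * g) u) = hw (gram g u) := by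
  refine hw_cast (natDegree_C_mul hc) _ _ fun i j => ?_
  unfold gram
  rw [trace_mul hc]
  rfl

theorem cor_mul {c : F} (hc : c ≠ 0) (g a b : F[X]) : cor (C c * g) a b = cor g a b := by
  unfold cor
  rw [gram_mul hc, gram_mul hc, gram_mul hc, gram_mul hc, norm_mul' hc, norm_mul' hc]

end Pool.Agent.Helper98.BM
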